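import Mathlib

/-!
# No polynomial interpolates the characteristic polynomials of `q`-deformations

We exhibit a finite graph `G` such that the characteristic polynomials of the
generalised `q`-deformations (over the prime fields `ZMod p`) of its clique complex
are not given by any polynomial in two variables.
-/

namespace Pool.Agent.Results.MP_6fdec2_co.NoPoly

open Finset

/-- The generalised `q`-deformation over the field `K` of a family `F` of finite subsets
(faces) of the vertex set `V`: the set of all hyperplanes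
`ker (a_{i_1} x_{i_1} + ... + a_{i_r} x_{i_r})`, where `{i_1, ..., i_r}` is a nonempty member
of `F` and all coefficients are nonzero. -/
def deformation {V : Type} [Fintype V] (F : Set (Finset V)) (K : Type) [Field K] :
    Set (Submodule K (V → K)) :=
  {H | ∃ S ∈ F, S.Nonempty ∧ ∃ a : V → K, (∀ i ∈ S, a i ≠ 0) ∧
    H = LinearMap.ker (∑ i ∈ S, a i • (LinearMap.proj i : (V → K) →ₗ[K] K))}

/-- The characteristic polynomial of a set `A` of subspaces of a finite vector space:
the sum over all subsets `I` of `A` of `(-1)^|I| t^(dim H_I)`, with `H_I` the intersection of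
the members of `I` (the whole space if `I` is empty). -/
noncomputable def charPoly {K M : Type} [Field K] [AddCommGroup M] [Module K M] [Finite M]
    (A : Set (Submodule K M)) : Polynomial ℤ :=
  ∑ I ∈ (Set.toFinite A).toFinset.powerset,
    Polynomial.C ((-1 : ℤ) ^ I.card) *
      Polynomial.X ^ Module.finrank K (sInf (I : Set (Submodule K M)) : Submodule K M)

/-- The clique complex of a graph: its faces are the finite sets of pairwise adjacent
vertices. -/
def cliqueComplex {V : Type} (G : SimpleGraph V) : Set (Finset V) :=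
  {C | G.IsClique (C : Set V)}

/-- integer valued indicator of a proposition -/
noncomputable def ind (P : Prop) : ℤ := @ite ℤ P (Classical.propDecidable P) 1 0

theorem ind_of {P : Prop} (h : P) : ind P = 1 := by
  unfold ind; rw [if_pos h]

theorem ind_not {P : Prop} (h : ¬ P) : ind P = 0 := by
  unfold ind; rw [if_neg h]

theorem prod_ind {ι : Type} (s : Finset ι) (P : ι → Prop) :
    ∏ i ∈ s, ind (P i) = ind (∀ i ∈ s, P i) := by
  by_cases h : ∀ i ∈ s, P i
  · rw [ind_of h]
    exact Finset.prod_eq_one fun i hi => ind_of (h i hi)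
  · rw [ind_not h]
    push Not at h
    obtain ⟨i, hi, hP⟩ := h
    exact Finset.prod_eq_zero hi (ind_not hP)

theorem sum_ind {ι : Type} [Fintype ι] (P : ι → Prop) :
    ∑ i, ind (P i) = (Nat.card {i // P i} : ℤ) := by
  classical
  rw [Nat.card_eq_fintype_card, Fintype.card_subtype, Finset.card_filter]
  push_cast
  refine Finset.sum_congr rfl fun i _ => ?_
  by_cases h : P i
  · rw [ind_of h, if_pos h]
  · rw [ind_not h, if_neg h]

theorem one_sub_ind (P : Prop) : 1 + -(ind P) = ind (¬ P) := by
  by_cases h : P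
  · rw [ind_of h, ind_not (not_not.mpr h)]; norm_num
  · rw [ind_not h, ind_of h]; norm_num

/-- inclusion-exclusion -/
theorem incl_excl {ι : Type} (s : Finset ι) (P : ι → Prop) :
    ∑ I ∈ s.powerset, (-1 : ℤ) ^ I.card * ind (∀ i ∈ I, P i) = ind (∀ i ∈ s, ¬ P i) := by
  rw [← prod_ind]
  simp_rw [← one_sub_ind]
  rw [Finset.prod_one_add]
  refine Finset.sum_congr rfl fun I _ => ?_
  rw [Finset.prod_neg, prod_ind]

/-- no linear combination with all coefficients nonzero vanishes -/
def Good {V K : Type} [Field K] {k : ℕ} (S : Finset V) (w : Fin k → V → K) : Prop :=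
  ∀ a : V → K, (∀ i ∈ S, a i ≠ 0) → ¬ ∀ j, ∑ i ∈ S, a i * w j i = 0

theorem eval_charPoly {V : Type} [Fintype V] (F : Set (Finset V)) (K : Type) [Field K]
    [Fintype K] (k : ℕ) :
    (charPoly (deformation F K)).eval (((Fintype.card K : ℕ) : ℤ) ^ k) =
      (Nat.card {w : Fin k → V → K // ∀ S ∈ F, S.Nonempty → Good S w} : ℤ) := by
  classical
  rw [← sum_ind]
  have h1 : ∀ I : Finset (Submodule K (V → K)),
      (((Fintype.card K : ℕ) : ℤ) ^ k) ^
        Module.finrank K (sInf (I : Set (Submodule K (V → K))) : Submodule K (V → K)) =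
      ∑ w : Fin k → V → K, ind (∀ H ∈ I, ∀ j, w j ∈ H) := by
    intro I
    rw [sum_ind]
    rw [← pow_mul, mul_comm, pow_mul]
    have h2 := Module.natCard_eq_pow_finrank (K := K)
      (V := (sInf (I : Set (Submodule K (V → K))) : Submodule K (V → K)))
    rw [Nat.card_eq_fintype_card (α := K)] at h2
    rw [← Nat.cast_pow, ← h2, ← Nat.cast_pow]
    congr 1
    have h4 : (Nat.card (sInf (I : Set (Submodule K (V → K))) : Submodule K (V → K))) ^ k =
        Nat.card (Fin k → (sInf (I : Set (Submodule K (V → K))) : Submodule K (V → K))) := by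
      simp
    rw [h4]
    refine Nat.card_congr
      { toFun := fun w => ⟨fun j => (w j : V → K), ?_⟩
        invFun := fun w => fun j => ⟨w.1 j, ?_⟩
        left_inv := fun w => rfl
        right_inv := fun w => rfl }
    · intro H hH j
      have := (w j).2
      rw [Submodule.mem_sInf] at this
      exact this H (by simpa using hH)
    · rw [Submodule.mem_sInf]
      intro H hH
      exact w.2 H (by simpa using hH) j
  unfold charPoly
  rw [Polynomial.eval_finsetSum]
  simp only [Polynomial.eval_mul, Polynomial.eval_C, Polynomial.eval_pow, Polynomial.eval_X]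
  simp_rw [h1, Finset.mul_sum]
  rw [Finset.sum_comm]
  refine Finset.sum_congr rfl fun w _ => ?_
  rw [incl_excl]
  congr 1
  apply propext
  constructor
  · intro h S hS hne a ha hz
    refine h (LinearMap.ker (∑ i ∈ S, a i • (LinearMap.proj i : (V → K) →ₗ[K] K))) ?_ ?_
    · simp only [Set.Finite.mem_toFinset]
      exact ⟨S, hS, hne, a, ha, rfl⟩
    · intro j
      rw [LinearMap.mem_ker]
      have := hz j
      simpa using this
  · intro h H hH hz
    simp only [Set.Finite.mem_toFinset] at hH
    obtain ⟨S, hS, hne, a, ha, rfl⟩ := hH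
    refine h S hS hne a ha ?_
    intro j
    have := hz j
    rw [LinearMap.mem_ker] at this
    simpa using this

/-! ### The graphs -/

/-- gadgets -/
abbrev J := Fin 4 ⊕ Fin 7

/-- vertices: seven masters and three copies for each gadget -/
abbrev Vx := Fin 7 ⊕ (J × Fin 3)

/-- toggles -/
abbrev Tg := (J × Fin 3) ⊕ Fin 7

/-- the masters of a gadget -/
def Ms : J → Fin 3 → Fin 7
  | Sum.inl i => ![![0, 1, 2], ![0, 1, 3], ![0, 2, 3], ![1, 2, 3]] i
  | Sum.inr i => ![![0, 1, 4], ![2, 3, 4], ![0, 2, 5], ![1, 3, 5], ![0, 3, 6], ![1, 2, 6],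
      ![4, 5, 6]] i

theorem Ms_inj : ∀ j : J, ∀ p q : Fin 3, Ms j p = Ms j q → p = q := by decide

/-- adjacency relation -/
def adj (S : Finset Tg) : Vx → Vx → Prop
  | Sum.inl _, Sum.inl _ => False
  | Sum.inl m, Sum.inr (j, p) => m = Ms j p ∧ Sum.inl (j, p) ∈ S
  | Sum.inr (j, p), Sum.inl m => m = Ms j p ∧ Sum.inl (j, p) ∈ S
  | Sum.inr (j, p), Sum.inr (j', p') =>
      j = j' ∧ p ≠ p' ∧ (p = 2 ∨ p' = 2 ∨ ∀ i, j = Sum.inr i → Sum.inr i ∈ S)

theorem adj_symm (S : Finset Tg) : ∀ u v, adj S u v → adj S v u := by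
  rintro (m | ⟨j, p⟩) (m' | ⟨j', p'⟩) h
  · exact h
  · exact h
  · exact h
  · obtain ⟨rfl, h1, h2⟩ := h
    exact ⟨rfl, h1.symm, by tauto⟩

/-- the graphs -/
def Gr (S : Finset Tg) : SimpleGraph Vx where
  Adj := adj S
  symm := ⟨fun u v h => adj_symm S u v h⟩
  loopless := ⟨by
    rintro (m | ⟨j, p⟩) h
    · exact h
    · exact h.2.1 rfl⟩

/-- copies -/
abbrev cp (j : J) (p : Fin 3) : Vx := Sum.inr (j, p)

/-- base condition -/
def Base {K : Type} [Field K] {k : ℕ} (w : Fin k → Vx → K) : Prop :=
  (∀ v, Good {v} w) ∧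
  (∀ j, Good {cp j 0, cp j 2} w ∧ Good {cp j 1, cp j 2} w) ∧
  (∀ i : Fin 4, Good {cp (Sum.inl i) 0, cp (Sum.inl i) 1} w ∧
    Good {cp (Sum.inl i) 0, cp (Sum.inl i) 1, cp (Sum.inl i) 2} w)

/-- toggled condition -/
def Tog {K : Type} [Field K] {k : ℕ} (w : Fin k → Vx → K) : Tg → Prop
  | Sum.inl (j, p) => Good {Sum.inl (Ms j p), cp j p} w
  | Sum.inr i => Good {cp (Sum.inr i) 0, cp (Sum.inr i) 1} w ∧
    Good {cp (Sum.inr i) 0, cp (Sum.inr i) 1, cp (Sum.inr i) 2} w

theorem cond_iff {K : Type} [Field K] {k : ℕ} (w : Fin k → Vx → K) (S : Finset Tg) :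
    (∀ C ∈ cliqueComplex (Gr S), C.Nonempty → Good C w) ↔ Base w ∧ ∀ τ ∈ S, Tog w τ := by
  constructor
  · intro h
    have hpair : ∀ u v, adj S u v → Good {u, v} w := by
      intro u v huv
      refine h _ ?_ ⟨u, by simp⟩
      simp only [cliqueComplex, Set.mem_ofPred_eq, Finset.coe_insert, Finset.coe_singleton]
      rw [SimpleGraph.isClique_insert]
      refine ⟨by simp, fun b hb _ => ?_⟩
      rw [Set.mem_singleton_iff] at hb
      subst hb
      exact huv
    have htrip : ∀ u v x, adj S u v → adj S u x → adj S v x → Good {u, v, x} w := by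
      intro u v x huv hux hvx
      refine h _ ?_ ⟨u, by simp⟩
      simp only [cliqueComplex, Set.mem_ofPred_eq, Finset.coe_insert, Finset.coe_singleton]
      rw [SimpleGraph.isClique_insert, SimpleGraph.isClique_insert]
      refine ⟨⟨by simp, fun b hb _ => ?_⟩, fun b hb _ => ?_⟩
      · rw [Set.mem_singleton_iff] at hb
        subst hb
        exact hvx
      · rw [Set.mem_insert_iff, Set.mem_singleton_iff] at hb
        rcases hb with rfl | rfl
        · exact huv
        · exact hux
    refine ⟨⟨?_, ?_, ?_⟩, ?_⟩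
    · intro v
      exact h _ (by simp [cliqueComplex]) ⟨v, by simp⟩
    · intro j
      exact ⟨hpair _ _ ⟨rfl, by decide, Or.inr (Or.inl rfl)⟩,
        hpair _ _ ⟨rfl, by decide, Or.inr (Or.inl rfl)⟩⟩
    · intro i
      have h01 : adj S (cp (Sum.inl i) 0) (cp (Sum.inl i) 1) :=
        ⟨rfl, by decide, Or.inr (Or.inr (by simp))⟩
      exact ⟨hpair _ _ h01, htrip _ _ _ h01 ⟨rfl, by decide, Or.inr (Or.inl rfl)⟩
        ⟨rfl, by decide, Or.inr (Or.inl rfl)⟩⟩
    · rintro (⟨j, p⟩ | i) hτ
      · exact hpair _ _ ⟨rfl, hτ⟩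
      · have h01 : adj S (cp (Sum.inr i) 0) (cp (Sum.inr i) 1) :=
          ⟨rfl, by decide, Or.inr (Or.inr (by
            intro i' hi'
            rw [Sum.inr.injEq] at hi'
            subst hi'
            exact hτ))⟩
        exact ⟨hpair _ _ h01, htrip _ _ _ h01 ⟨rfl, by decide, Or.inr (Or.inl rfl)⟩
          ⟨rfl, by decide, Or.inr (Or.inl rfl)⟩⟩
  · rintro ⟨⟨hB1, hB2, hB3⟩, hT⟩ C hC hne
    have hadj : ∀ u ∈ C, ∀ v ∈ C, u ≠ v → adj S u v := by
      intro u hu v hv huv
      exact hC (by simpa using hu) (by simpa using hv) huv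
    by_cases hA : ∃ j p, cp j p ∈ C
    · obtain ⟨j, p, hjp⟩ := hA
      by_cases hm : ∃ m, Sum.inl m ∈ C
      · obtain ⟨m, hm⟩ := hm
        have h1 := hadj _ hm _ hjp (by simp)
        have hmeq : m = Ms j p := h1.1
        have hS : Sum.inl (j, p) ∈ S := h1.2
        have hCeq : C = {Sum.inl (Ms j p), cp j p} := by
          ext x
          simp only [Finset.mem_insert, Finset.mem_singleton]
          constructor
          · intro hx
            rcases x with m' | ⟨j', p'⟩
            · left
              by_contra hne'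
              have := hadj _ hm _ hx (by rw [hmeq]; exact fun h => hne' h.symm)
              exact this
            · right
              by_contra hne'
              have h2 := hadj _ hx _ hjp hne'
              have h3 := hadj _ hm _ hx (by simp)
              have h4 : j' = j := h2.1
              subst h4
              have h5 : m = Ms j' p' := h3.1
              exact h2.2.1 (Ms_inj j' _ _ (h5.symm.trans hmeq))
          · rintro (rfl | rfl)
            · rw [← hmeq]; exact hm
            · exact hjp
        rw [hCeq]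
        exact hT _ hS
      · push Not at hm
        have hform : ∀ x ∈ C, ∃ p', x = cp j p' := by
          intro x hx
          rcases x with m' | ⟨j', p'⟩
          · exact absurd hx (hm m')
          · by_cases he : (Sum.inr (j', p') : Vx) = cp j p
            · exact ⟨p, he⟩
            · have h2 := hadj _ hx _ hjp he
              have h4 : j' = j := h2.1
              subst h4
              exact ⟨p', rfl⟩
        have h01 : cp j 0 ∈ C → cp j 1 ∈ C →
            Good {cp j 0, cp j 1} w ∧ Good {cp j 0, cp j 1, cp j 2} w := by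
          intro h0 h1
          have h2 := hadj _ h0 _ h1 (by simp)
          have h3 := h2.2.2
          rcases j with i | i
          · exact hB3 i
          · rcases h3 with h3 | h3 | h3
            · exact absurd h3 (by decide)
            · exact absurd h3 (by decide)
            · exact hT _ (h3 i rfl)
        by_cases c0 : cp j 0 ∈ C <;> by_cases c1 : cp j 1 ∈ C <;> by_cases c2 : cp j 2 ∈ C
        · have : C = {cp j 0, cp j 1, cp j 2} := by
            ext x
            simp only [Finset.mem_insert, Finset.mem_singleton]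
            constructor
            · intro hx
              obtain ⟨p', rfl⟩ := hform x hx
              fin_cases p' <;> simp
            · rintro (rfl | rfl | rfl) <;> assumption
          rw [this]
          exact (h01 c0 c1).2
        · have : C = {cp j 0, cp j 1} := by
            ext x
            simp only [Finset.mem_insert, Finset.mem_singleton]
            constructor
            · intro hx
              obtain ⟨p', rfl⟩ := hform x hx
              fin_cases p'
              · simp
              · simp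
              · exact absurd hx c2
            · rintro (rfl | rfl) <;> assumption
          rw [this]
          exact (h01 c0 c1).1
        · have : C = {cp j 0, cp j 2} := by
            ext x
            simp only [Finset.mem_insert, Finset.mem_singleton]
            constructor
            · intro hx
              obtain ⟨p', rfl⟩ := hform x hx
              fin_cases p'
              · simp
              · exact absurd hx c1
              · simp
            · rintro (rfl | rfl) <;> assumption
          rw [this]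
          exact (hB2 j).1
        · have : C = {cp j 0} := by
            ext x
            simp only [Finset.mem_singleton]
            constructor
            · intro hx
              obtain ⟨p', rfl⟩ := hform x hx
              fin_cases p'
              · simp
              · exact absurd hx c1
              · exact absurd hx c2
            · rintro rfl; assumption
          rw [this]
          exact hB1 _
        · have : C = {cp j 1, cp j 2} := by
            ext x
            simp only [Finset.mem_insert, Finset.mem_singleton]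
            constructor
            · intro hx
              obtain ⟨p', rfl⟩ := hform x hx
              fin_cases p'
              · exact absurd hx c0
              · simp
              · simp
            · rintro (rfl | rfl) <;> assumption
          rw [this]
          exact (hB2 j).2
        · have : C = {cp j 1} := by
            ext x
            simp only [Finset.mem_singleton]
            constructor
            · intro hx
              obtain ⟨p', rfl⟩ := hform x hx
              fin_cases p'
              · exact absurd hx c0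
              · simp
              · exact absurd hx c2
            · rintro rfl; assumption
          rw [this]
          exact hB1 _
        · have : C = {cp j 2} := by
            ext x
            simp only [Finset.mem_singleton]
            constructor
            · intro hx
              obtain ⟨p', rfl⟩ := hform x hx
              fin_cases p'
              · exact absurd hx c0
              · exact absurd hx c1
              · simp
            · rintro rfl; assumption
          rw [this]
          exact hB1 _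
        · exfalso
          fin_cases p
          · exact c0 hjp
          · exact c1 hjp
          · exact c2 hjp
    · push Not at hA
      obtain ⟨x, hx⟩ := hne
      have : C = {x} := by
        ext y
        simp only [Finset.mem_singleton]
        constructor
        · intro hy
          by_contra hne'
          have h2 := hadj _ hy _ hx hne'
          rcases x with m | ⟨j, p⟩
          · rcases y with m' | ⟨j', p'⟩
            · exact h2
            · exact hA j' p' hy
          · exact hA j p hx
        · rintro rfl; exact hx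
      rw [this]
      exact hB1 _

/-- the configurations left after inclusion-exclusion -/
def Conf {K : Type} [Field K] {k : ℕ} (w : Fin k → Vx → K) : Prop :=
  Base w ∧ ∀ τ, ¬ Tog w τ

theorem alt_sum (K : Type) [Field K] [Fintype K] (k : ℕ) :
    ∑ S ∈ (Finset.univ : Finset Tg).powerset, (-1 : ℤ) ^ S.card *
      (charPoly (deformation (cliqueComplex (Gr S)) K)).eval (((Fintype.card K : ℕ) : ℤ) ^ k) =
    (Nat.card {w : Fin k → Vx → K // Conf w} : ℤ) := by
  classical
  simp_rw [eval_charPoly, ← sum_ind, Finset.mul_sum]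
  rw [Finset.sum_comm]
  refine Finset.sum_congr rfl fun w _ => ?_
  simp_rw [cond_iff]
  have h1 : ∀ S : Finset Tg, ind (Base w ∧ ∀ τ ∈ S, Tog w τ) =
      ind (Base w) * ind (∀ τ ∈ S, Tog w τ) := by
    intro S
    by_cases h : Base w
    · rw [ind_of h, one_mul]
      congr 1
      simp [h]
    · rw [ind_not h, zero_mul]
      exact ind_not fun h' => h h'.1
  simp_rw [h1, mul_left_comm _ (ind (Base w)), ← Finset.mul_sum]
  rw [incl_excl]
  unfold Conf
  by_cases h : Base w
  · rw [ind_of h, one_mul]
    congr 1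
    simp [h]
  · rw [ind_not h, zero_mul]
    exact (ind_not fun h' => h h'.1).symm

/-- a pair that is not good gives a relation -/
theorem rel2 {K : Type} [Field K] {k : ℕ} {w : Fin k → Vx → K} {u v : Vx} (huv : u ≠ v)
    (h : ¬ Good {u, v} w) : ∃ x y : K, x ≠ 0 ∧ y ≠ 0 ∧ ∀ j, x * w j u + y * w j v = 0 := by
  unfold Good at h
  push Not at h
  obtain ⟨a, ha, hz⟩ := h
  refine ⟨a u, a v, ha u (by simp), ha v (by simp), fun j => ?_⟩
  have := hz j
  rwa [Finset.sum_insert (by simpa using huv), Finset.sum_singleton] at this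

theorem rel3 {K : Type} [Field K] {k : ℕ} {w : Fin k → Vx → K} {u v x : Vx} (huv : u ≠ v)
    (hux : u ≠ x) (hvx : v ≠ x) (h : ¬ Good {u, v, x} w) :
    ∃ r s t : K, r ≠ 0 ∧ s ≠ 0 ∧ t ≠ 0 ∧ ∀ j, r * w j u + s * w j v + t * w j x = 0 := by
  unfold Good at h
  push Not at h
  obtain ⟨a, ha, hz⟩ := h
  refine ⟨a u, a v, a x, ha u (by simp), ha v (by simp), ha x (by simp), fun j => ?_⟩
  have := hz j
  rw [Finset.sum_insert (by simp [huv, hux]), Finset.sum_insert (by simpa using hvx),
    Finset.sum_singleton] at this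
  linear_combination this

open Classical in
theorem good1 {K : Type} [Field K] {k : ℕ} {w : Fin k → Vx → K} {u : Vx}
    (h : Good {u} w) (r : K) (hz : ∀ j, r * w j u = 0) : r = 0 := by
  by_contra hr
  refine h (fun _ => r) (fun _ _ => hr) fun j => ?_
  rw [Finset.sum_singleton]
  exact hz j

open Classical in
theorem good2 {K : Type} [Field K] {k : ℕ} {w : Fin k → Vx → K} {u v : Vx} (huv : u ≠ v)
    (h : Good {u, v} w) (r s : K) (hr : r ≠ 0) (hs : s ≠ 0)
    (hz : ∀ j, r * w j u + s * w j v = 0) : False := by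
  refine h (fun x => if x = u then r else s) (fun x _ => ?_) fun j => ?_
  · show (if x = u then r else s) ≠ 0
    split_ifs <;> assumption
  · rw [Finset.sum_insert (by simpa using huv), Finset.sum_singleton, if_pos rfl,
      if_neg huv.symm]
    exact hz j

open Classical in
theorem good3 {K : Type} [Field K] {k : ℕ} {w : Fin k → Vx → K} {u v x : Vx} (huv : u ≠ v)
    (hux : u ≠ x) (hvx : v ≠ x)
    (h : Good {u, v, x} w) (r s t : K) (hr : r ≠ 0) (hs : s ≠ 0) (ht : t ≠ 0)
    (hz : ∀ j, r * w j u + s * w j v + t * w j x = 0) : False := by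
  refine h (fun y => if y = u then r else if y = v then s else t) (fun y _ => ?_) fun j => ?_
  · show (if y = u then r else if y = v then s else t) ≠ 0
    split_ifs <;> assumption
  · rw [Finset.sum_insert (by simp [huv, hux]), Finset.sum_insert (by simpa using hvx),
      Finset.sum_singleton, if_pos rfl, if_neg huv.symm, if_pos rfl, if_neg hux.symm,
      if_neg hvx.symm]
    linear_combination hz j

/-- every copy is a nonzero multiple of its master -/
theorem copy_rel {K : Type} [Field K] {k : ℕ} {w : Fin k → Vx → K} (h : Conf w) (j : J)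
    (p : Fin 3) : ∃ c : K, c ≠ 0 ∧ ∀ i, w i (Sum.inl (Ms j p)) = c * w i (cp j p) := by
  obtain ⟨x, y, hx, hy, hz⟩ := rel2 (by simp) (h.2 (Sum.inl (j, p)))
  refine ⟨-y / x, by simp [hx, hy], fun i => ?_⟩
  have := hz i
  field_simp
  linear_combination this

/-- masters of an independent gadget are linearly independent -/
theorem indep3 {K : Type} [Field K] {k : ℕ} {w : Fin k → Vx → K} (h : Conf w) (i : Fin 4)
    (x y z : K) (hz : ∀ t, x * w t (Sum.inl (Ms (Sum.inl i) 0)) +
      y * w t (Sum.inl (Ms (Sum.inl i) 1)) + z * w t (Sum.inl (Ms (Sum.inl i) 2)) = 0) :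
    x = 0 ∧ y = 0 ∧ z = 0 := by
  obtain ⟨c0, hc0, h0⟩ := copy_rel h (Sum.inl i) 0
  obtain ⟨c1, hc1, h1⟩ := copy_rel h (Sum.inl i) 1
  obtain ⟨c2, hc2, h2⟩ := copy_rel h (Sum.inl i) 2
  obtain ⟨hB1, hB2, hB3⟩ := h.1
  have e01 : (cp (Sum.inl i) 0 : Vx) ≠ cp (Sum.inl i) 1 := by simp
  have e02 : (cp (Sum.inl i) 0 : Vx) ≠ cp (Sum.inl i) 2 := by simp
  have e12 : (cp (Sum.inl i) 1 : Vx) ≠ cp (Sum.inl i) 2 := by simp
  have hz' : ∀ t, (x * c0) * w t (cp (Sum.inl i) 0) + (y * c1) * w t (cp (Sum.inl i) 1) +
      (z * c2) * w t (cp (Sum.inl i) 2) = 0 := by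
    intro t
    have := hz t
    rw [h0, h1, h2] at this
    linear_combination this
  by_cases hx : x = 0 <;> by_cases hy : y = 0 <;> by_cases hzz : z = 0
  · exact ⟨hx, hy, hzz⟩
  · exfalso
    subst hx hy
    refine mul_ne_zero hzz hc2 (good1 (hB1 (cp (Sum.inl i) 2)) _ fun t => ?_)
    linear_combination hz' t
  · exfalso
    subst hx hzz
    refine mul_ne_zero hy hc1 (good1 (hB1 (cp (Sum.inl i) 1)) _ fun t => ?_)
    linear_combination hz' t
  · exfalso
    subst hx
    refine good2 e12 (hB2 (Sum.inl i)).2 _ _ (mul_ne_zero hy hc1) (mul_ne_zero hzz hc2)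
      fun t => ?_
    linear_combination hz' t
  · exfalso
    subst hy hzz
    refine mul_ne_zero hx hc0 (good1 (hB1 (cp (Sum.inl i) 0)) _ fun t => ?_)
    linear_combination hz' t
  · exfalso
    subst hy
    refine good2 e02 (hB2 (Sum.inl i)).1 _ _ (mul_ne_zero hx hc0) (mul_ne_zero hzz hc2)
      fun t => ?_
    linear_combination hz' t
  · exfalso
    subst hzz
    refine good2 e01 (hB3 i).1 _ _ (mul_ne_zero hx hc0) (mul_ne_zero hy hc1)
      fun t => ?_
    linear_combination hz' t
  · exact (good3 e01 e02 e12 (hB3 i).2 _ _ _ (mul_ne_zero hx hc0) (mul_ne_zero hy hc1)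
      (mul_ne_zero hzz hc2) hz').elim

/-- relation for a dependent gadget -/
theorem dep3 {K : Type} [Field K] {k : ℕ} {w : Fin k → Vx → K} (h : Conf w) (i : Fin 7) :
    ∃ x y z : K, x ≠ 0 ∧ y ≠ 0 ∧ ∀ t, x * w t (Sum.inl (Ms (Sum.inr i) 0)) +
      y * w t (Sum.inl (Ms (Sum.inr i) 1)) + z * w t (Sum.inl (Ms (Sum.inr i) 2)) = 0 := by
  obtain ⟨c0, hc0, h0⟩ := copy_rel h (Sum.inr i) 0
  obtain ⟨c1, hc1, h1⟩ := copy_rel h (Sum.inr i) 1
  obtain ⟨c2, hc2, h2⟩ := copy_rel h (Sum.inr i) 2
  have e01 : (cp (Sum.inr i) 0 : Vx) ≠ cp (Sum.inr i) 1 := by simp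
  have e02 : (cp (Sum.inr i) 0 : Vx) ≠ cp (Sum.inr i) 2 := by simp
  have e12 : (cp (Sum.inr i) 1 : Vx) ≠ cp (Sum.inr i) 2 := by simp
  have hT : ¬ (Good {cp (Sum.inr i) 0, cp (Sum.inr i) 1} w ∧
    Good {cp (Sum.inr i) 0, cp (Sum.inr i) 1, cp (Sum.inr i) 2} w) := h.2 (Sum.inr i)
  by_cases h01 : Good {cp (Sum.inr i) 0, cp (Sum.inr i) 1} w
  · have h012 : ¬ Good {cp (Sum.inr i) 0, cp (Sum.inr i) 1, cp (Sum.inr i) 2} w :=
      fun h' => hT ⟨h01, h'⟩
    obtain ⟨r, s, t, hr, hs, ht, hz⟩ := rel3 e01 e02 e12 h012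
    refine ⟨r / c0, s / c1, t / c2, div_ne_zero hr hc0, div_ne_zero hs hc1, fun u => ?_⟩
    rw [h0, h1, h2]
    field_simp
    linear_combination hz u
  · obtain ⟨r, s, hr, hs, hz⟩ := rel2 e01 h01
    refine ⟨r / c0, s / c1, 0, div_ne_zero hr hc0, div_ne_zero hs hc1, fun u => ?_⟩
    rw [h0, h1, h2]
    field_simp
    linear_combination hz u

/-- a relation `x a + y b + z e = 0` with `x, y ≠ 0` and `a, b` independent gives `e` as a
combination with nonzero coefficients -/
theorem solve_rel {K : Type} [Field K] {k : ℕ} (a b e : Fin k → K)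
    (hI : ∀ x y : K, (∀ t, x * a t + y * b t = 0) → x = 0 ∧ y = 0)
    (h : ∃ x y z : K, x ≠ 0 ∧ y ≠ 0 ∧ ∀ t, x * a t + y * b t + z * e t = 0) :
    ∃ α β : K, α ≠ 0 ∧ β ≠ 0 ∧ ∀ t, e t = α * a t + β * b t := by
  obtain ⟨x, y, z, hx, hy, hz⟩ := h
  have hz0 : z ≠ 0 := by
    rintro rfl
    exact hx (hI x y (fun t => by linear_combination hz t)).1
  refine ⟨-x / z, -y / z, by simp [hx, hz0], by simp [hy, hz0], fun t => ?_⟩
  field_simp
  linear_combination hz t

theorem no_conf {K : Type} [Field K] (h2 : (2 : K) ≠ 0) {k : ℕ} (w : Fin k → Vx → K) :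
    ¬ Conf w := by
  intro h
  set a : Fin k → K := fun t => w t (Sum.inl 0) with ha
  set b : Fin k → K := fun t => w t (Sum.inl 1) with hb
  set c : Fin k → K := fun t => w t (Sum.inl 2) with hc
  set d : Fin k → K := fun t => w t (Sum.inl 3) with hd
  set e : Fin k → K := fun t => w t (Sum.inl 4) with he
  set f : Fin k → K := fun t => w t (Sum.inl 5) with hf
  set g : Fin k → K := fun t => w t (Sum.inl 6) with hg
  have habc : ∀ x y z : K, (∀ t, x * a t + y * b t + z * c t = 0) → x = 0 ∧ y = 0 ∧ z = 0 :=
    fun x y z hz => indep3 h 0 x y z hz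
  have habd : ∀ x y z : K, (∀ t, x * a t + y * b t + z * d t = 0) → x = 0 ∧ y = 0 ∧ z = 0 :=
    fun x y z hz => indep3 h 1 x y z hz
  have hacd : ∀ x y z : K, (∀ t, x * a t + y * c t + z * d t = 0) → x = 0 ∧ y = 0 ∧ z = 0 :=
    fun x y z hz => indep3 h 2 x y z hz
  have hbcd : ∀ x y z : K, (∀ t, x * b t + y * c t + z * d t = 0) → x = 0 ∧ y = 0 ∧ z = 0 :=
    fun x y z hz => indep3 h 3 x y z hz
  obtain ⟨α1, β1, hα1, hβ1, he1⟩ := solve_rel a b e
    (fun x y hz => ⟨(habc x y 0 (fun t => by linear_combination hz t)).1,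
      (habc x y 0 (fun t => by linear_combination hz t)).2.1⟩) (dep3 h 0)
  obtain ⟨γ1, δ1, hγ1, hδ1, he2⟩ := solve_rel c d e
    (fun x y hz => ⟨(hbcd 0 x y (fun t => by linear_combination hz t)).2.1,
      (hbcd 0 x y (fun t => by linear_combination hz t)).2.2⟩) (dep3 h 1)
  obtain ⟨α2, γ2, hα2, hγ2, hf1⟩ := solve_rel a c f
    (fun x y hz => ⟨(hacd x y 0 (fun t => by linear_combination hz t)).1,
      (hacd x y 0 (fun t => by linear_combination hz t)).2.1⟩) (dep3 h 2)
  obtain ⟨β2, δ2, hβ2, hδ2, hf2⟩ := solve_rel b d f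
    (fun x y hz => ⟨(habd 0 x y (fun t => by linear_combination hz t)).2.1,
      (habd 0 x y (fun t => by linear_combination hz t)).2.2⟩) (dep3 h 3)
  obtain ⟨α3, δ3, hα3, hδ3, hg1⟩ := solve_rel a d g
    (fun x y hz => ⟨(habd x 0 y (fun t => by linear_combination hz t)).1,
      (habd x 0 y (fun t => by linear_combination hz t)).2.2⟩) (dep3 h 4)
  obtain ⟨β3, γ3, hβ3, hγ3, hg2⟩ := solve_rel b c g
    (fun x y hz => ⟨(hbcd x y 0 (fun t => by linear_combination hz t)).1,
      (hbcd x y 0 (fun t => by linear_combination hz t)).2.1⟩) (dep3 h 5)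
  obtain ⟨x, y, z, hx, hy, hz⟩ := dep3 h 6
  have hz' : ∀ t, x * e t + y * f t + z * g t = 0 := hz
  -- comparison of the three expressions of `d`
  obtain ⟨q1, -, -⟩ := habc (δ2 * α1 - δ1 * α2) (δ2 * β1 + δ1 * β2) (-(δ2 * γ1) - δ1 * γ2)
    (fun t => by
      have h1 := (he1 t).symm.trans (he2 t)
      have h2 := (hf1 t).symm.trans (hf2 t)
      linear_combination δ2 * h1 - δ1 * h2)
  obtain ⟨-, q2, -⟩ := habc (δ3 * α1 + δ1 * α3) (δ3 * β1 - δ1 * β3) (-(δ3 * γ1) - δ1 * γ3)
    (fun t => by
      have h1 := (he1 t).symm.trans (he2 t)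
      have h2 := (hg1 t).symm.trans (hg2 t)
      linear_combination δ3 * h1 + δ1 * h2)
  obtain ⟨-, -, q3⟩ := habc (δ3 * α2 + δ2 * α3) (-(δ3 * β2) - δ2 * β3) (δ3 * γ2 - δ2 * γ3)
    (fun t => by
      have h1 := (hf1 t).symm.trans (hf2 t)
      have h2 := (hg1 t).symm.trans (hg2 t)
      linear_combination δ3 * h1 + δ2 * h2)
  obtain ⟨r1, r2, r3⟩ := habc (x * α1 + y * α2) (x * β1 + z * β3) (y * γ2 + z * γ3)
    (fun t => by
      have h1 := hz' t
      rw [he1, hf1, hg2] at h1
      linear_combination h1)
  have s1 : x * δ1 + y * δ2 = 0 := by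
    have : α1 * (x * δ1 + y * δ2) = 0 := by linear_combination δ1 * r1 + y * q1
    exact (mul_eq_zero.mp this).resolve_left hα1
  have s2 : x * δ1 + z * δ3 = 0 := by
    have : β1 * (x * δ1 + z * δ3) = 0 := by linear_combination δ1 * r2 + z * q2
    exact (mul_eq_zero.mp this).resolve_left hβ1
  have s3 : y * δ2 + z * δ3 = 0 := by
    have : γ2 * (y * δ2 + z * δ3) = 0 := by linear_combination δ2 * r3 + z * q3
    exact (mul_eq_zero.mp this).resolve_left hγ2
  have s4 : 2 * (x * δ1) = 0 := by linear_combination s1 + s2 - s3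
  rcases mul_eq_zero.mp s4 with h' | h'
  · exact h2 h'
  · exact mul_ne_zero hx hδ1 h'

/-- the Fano configuration -/
def fano : Fin 3 → Fin 7 → ZMod 2 :=
  ![![1, 0, 0, 1, 1, 1, 0], ![0, 1, 0, 1, 1, 0, 1], ![0, 0, 1, 1, 0, 1, 1]]

/-- the Fano configuration on all vertices -/
def w0 : Fin 3 → Vx → ZMod 2
  | j, Sum.inl m => fano j m
  | j, Sum.inr (g, p) => fano j (Ms g p)

theorem good_iff (S : Finset Vx) (w : Fin 3 → Vx → ZMod 2) :
    Good S w ↔ ¬ ∀ j, ∑ i ∈ S, w j i = 0 := by
  constructor
  · intro h hz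
    refine h (fun _ => 1) (fun _ _ => one_ne_zero) fun j => ?_
    simpa using hz j
  · intro h a ha hz
    refine h fun j => ?_
    rw [← hz j]
    refine Finset.sum_congr rfl fun i hi => ?_
    have : ∀ x : ZMod 2, x ≠ 0 → x = 1 := by decide
    rw [this _ (ha i hi), one_mul]

theorem conf_w0 : Conf w0 := by
  refine ⟨⟨?_, ?_, ?_⟩, ?_⟩
  · simp_rw [good_iff]; decide
  · simp_rw [good_iff]; decide
  · simp_rw [good_iff]; decide
  · rintro (⟨j, p⟩ | i)
    · show ¬ Good {Sum.inl (Ms j p), cp j p} w0
      rw [good_iff]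
      revert j p
      decide
    · show ¬ (Good {cp (Sum.inr i) 0, cp (Sum.inr i) 1} w0 ∧
        Good {cp (Sum.inr i) 0, cp (Sum.inr i) 1, cp (Sum.inr i) 2} w0)
      rw [good_iff, good_iff]
      revert i
      decide

/-- There is a finite graph `G` such that for every polynomial `P` in two variables with
complex coefficients there is a prime `p` for which the characteristic polynomial of the
`q`-deformation, `q = p`, of the clique complex of `G` differs from `P(p, t)`. -/
theorem result : ∃ (V : Type) (_ : Fintype V) (G : SimpleGraph V),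
    ∀ P : MvPolynomial (Fin 2) ℂ, ∃ (p : ℕ) (_ : Fact p.Prime) (t : ℂ),
      ((charPoly (deformation (cliqueComplex G) (ZMod p))).map (Int.castRingHom ℂ)).eval t ≠
        MvPolynomial.eval ![(p : ℂ), t] P := by
  by_contra hcon
  push Not at hcon
  have hS : ∀ S : Finset Tg, ∃ P : MvPolynomial (Fin 2) ℂ,
      ∀ (p : ℕ) (_ : Fact p.Prime) (t : ℂ),
        ((charPoly (deformation (cliqueComplex (Gr S)) (ZMod p))).map
          (Int.castRingHom ℂ)).eval t = MvPolynomial.eval ![(p : ℂ), t] P :=
    fun S => hcon Vx inferInstance (Gr S)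
  choose P hP using hS
  set R : Polynomial ℂ := ∑ S ∈ (Finset.univ : Finset Tg).powerset,
    Polynomial.C ((-1 : ℂ) ^ S.card) *
      MvPolynomial.aeval ![(Polynomial.X : Polynomial ℂ), Polynomial.X ^ 3] (P S) with hR
  have hev : ∀ (p : ℕ) [Fact p.Prime],
      R.eval (p : ℂ) = (Nat.card {w : Fin 3 → Vx → ZMod p // Conf w} : ℂ) := by
    intro p hp
    have h1 := alt_sum (ZMod p) 3
    rw [ZMod.card] at h1
    have h2 := congrArg (Int.castRingHom ℂ) h1
    rw [map_sum] at h2
    simp only [map_mul, map_pow, map_neg, map_one] at h2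
    rw [show ((Int.castRingHom ℂ) ((Nat.card {w : Fin 3 → Vx → ZMod p // Conf w} : ℕ) : ℤ)) =
      (Nat.card {w : Fin 3 → Vx → ZMod p // Conf w} : ℂ) by simp] at h2
    rw [← h2, hR, Polynomial.eval_finsetSum]
    refine Finset.sum_congr rfl fun S _ => ?_
    rw [Polynomial.eval_mul, Polynomial.eval_C]
    have h3 := hP S p hp ((p : ℂ) ^ 3)
    have h6 : Int.castRingHom ℂ ((p : ℤ) ^ 3) = (p : ℂ) ^ 3 := by
      rw [map_pow]
      norm_num
    rw [← h6, Polynomial.eval_map_apply] at h3
    rw [h3, h6]
    have h4 : (Polynomial.evalRingHom (p : ℂ)).comp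
        (MvPolynomial.aeval ![(Polynomial.X : Polynomial ℂ), Polynomial.X ^ 3] :
          MvPolynomial (Fin 2) ℂ →ₐ[ℂ] Polynomial ℂ).toRingHom =
        MvPolynomial.eval ![(p : ℂ), (p : ℂ) ^ 3] := by
      apply MvPolynomial.ringHom_ext
      · intro r
        simp
      · intro i
        fin_cases i <;> simp
    have h5 : Polynomial.eval (p : ℂ) (MvPolynomial.aeval
        ![(Polynomial.X : Polynomial ℂ), Polynomial.X ^ 3] (P S)) =
        MvPolynomial.eval ![(p : ℂ), (p : ℂ) ^ 3] (P S) := by
      rw [← h4]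
      rfl
    rw [h5]
  have hzero : R = 0 := by
    apply Polynomial.eq_zero_of_infinite_isRoot
    have hinf : ((fun n : ℕ => (n : ℂ)) '' {p : ℕ | p.Prime ∧ p ≠ 2}).Infinite := by
      apply Set.Infinite.image
      · intro x _ y _ hxy
        exact Nat.cast_injective hxy
      · have := Nat.infinite_setOfPred_prime.sdiff (Set.finite_singleton 2)
        refine this.mono ?_
        intro x hx
        exact ⟨hx.1, fun h => hx.2 h⟩
    refine hinf.mono ?_
    rintro _ ⟨p, ⟨hp, hp2⟩, rfl⟩
    have : Fact p.Prime := ⟨hp⟩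
    show R.IsRoot (p : ℂ)
    rw [Polynomial.IsRoot, hev p]
    have hempty : IsEmpty {w : Fin 3 → Vx → ZMod p // Conf w} := by
      refine ⟨fun w => no_conf ?_ w.1 w.2⟩
      intro h2
      have h3 : ((2 : ℕ) : ZMod p) = 0 := by exact_mod_cast h2
      rw [ZMod.natCast_eq_zero_iff] at h3
      exact hp2 ((Nat.prime_dvd_prime_iff_eq hp Nat.prime_two).mp h3)
    simp
  have : Fact (Nat.Prime 2) := ⟨Nat.prime_two⟩
  have h2 := hev 2
  rw [hzero, Polynomial.eval_zero] at h2
  have h3 : Nat.card {w : Fin 3 → Vx → ZMod 2 // Conf w} = 0 := by exact_mod_cast h2.symm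
  have h4 : Nonempty {w : Fin 3 → Vx → ZMod 2 // Conf w} := ⟨⟨w0, conf_w0⟩⟩
  have h5 : 0 < Nat.card {w : Fin 3 → Vx → ZMod 2 // Conf w} := Nat.card_pos
  omega

end Pool.Agent.Results.MP_6fdec2_co.NoPoly
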